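import Pool.Agent.Y131.KS.Chain
import Pool.Agent.Y131.KS.Alm
import Pool.Agent.Y131.KS.Sub

/-!
# The Kalai-Sarkaria theorem for complexes with vanishing deleted join obstruction

Let `L` be a simplicial complex with vertices `0, ..., n-1`, `1 ≤ d`, `d + 1 ≤ n`. If the mod `2`
obstruction of the deleted join of `L` to an odd map to the sphere `S^(d-1)` vanishes (a purely
homological condition) then the symmetric algebraic shifting `L^s`, over any infinite field of
characteristic `0` or `2`, is contained in the symmetric shifting of the boundary complex of the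
cyclic `d`-polytope with `n` vertices. The condition holds if there is an odd map from the deleted
join to `ℝ^d` without zeros, if `L` almost embeds in `S^(d-1)` and if `L` is a subcomplex of a mod
`2` homology sphere of dimension `d - 1` with any number of vertices.

The vertex `i` of the problem is our vertex `i - 1`, everywhere.
-/

set_option autoImplicit false

namespace Pool.Agent.Results.MP_dd083e_co.VanishingObstruction

open Finset MvPolynomial

/-- simplicial complex with vertices among `0, ..., n-1`: a family of finsets containing the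
empty set and closed under taking subsets -/
def IsComplex {n : ℕ} (L : Finset (Finset (Fin n))) : Prop :=
  ∅ ∈ L ∧ ∀ σ ∈ L, ∀ τ : Finset (Fin n), τ ⊆ σ → τ ∈ L

/-- the geometric realization, in barycentric coordinates -/
def realization {n : ℕ} (L : Finset (Finset (Fin n))) : Set (Fin n → ℝ) :=
  {x | (∀ i, 0 ≤ x i) ∧ ∑ i, x i = 1 ∧ ∃ σ ∈ L, ∀ i, i ∉ σ → x i = 0}

/-- topologically embeddable in the sphere `S^(d-1)`, the unit sphere of `ℝ^d` -/
def EmbedsInSphere {n : ℕ} (L : Finset (Finset (Fin n))) (d : ℕ) : Prop :=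
  ∃ f : realization L → Metric.sphere (0 : EuclideanSpace ℝ (Fin d)) 1, Topology.IsEmbedding f

open Classical in
/-- the boundary complex of the cyclic `d`-polytope with the `n` vertices `(i, i^2, ..., i^d)`,
`i < n`: the proper subsets `S` which are the set of all vertices on a supporting hyperplane -/
noncomputable def cyclicBoundary (n d : ℕ) : Finset (Finset (Fin n)) :=
  univ.filter (fun S => S ≠ univ ∧ ∃ a : Fin d → ℝ, ∃ c : ℝ,
    (∀ i ∈ S, ∑ j : Fin d, a j * ((i : ℕ) : ℝ) ^ ((j : ℕ) + 1) = c) ∧
    (∀ i : Fin n, i ∉ S → ∑ j : Fin d, a j * ((i : ℕ) : ℝ) ^ ((j : ℕ) + 1) < c))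

/-- the Stanley-Reisner ideal, generated by the squarefree monomials of the non-faces -/
noncomputable def srIdeal {n : ℕ} (k : Type*) [Field k] (L : Finset (Finset (Fin n))) :
    Ideal (MvPolynomial (Fin n) k) :=
  Ideal.span {p | ∃ σ : Finset (Fin n), σ ∉ L ∧ p = ∏ v ∈ σ, X v}

/-- degree reverse lexicographic order with `x_0 > x_1 > ...`: `RevLT m m'` means `m < m'` -/
def RevLT {n : ℕ} (m m' : Fin n →₀ ℕ) : Prop :=
  m.degree < m'.degree ∨ (m.degree = m'.degree ∧ ∃ j, m' j < m j ∧ ∀ i, j < i → m i = m' i)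

/-- the monomials of the initial ideal of the ideal `J`: the leading monomials of its elements -/
def inSet {n : ℕ} {k : Type*} [Field k] (J : Ideal (MvPolynomial (Fin n) k)) :
    Set (Fin n →₀ ℕ) :=
  {m | ∃ f ∈ J, coeff m f ≠ 0 ∧ ∀ m' ∈ f.support, m' ≠ m → RevLT m' m}

/-- the linear substitution `x_i ↦ ∑_j g_ij x_j` -/
noncomputable def linSubst {n : ℕ} {k : Type*} [Field k] (g : Fin n × Fin n → k) :
    MvPolynomial (Fin n) k →ₐ[k] MvPolynomial (Fin n) k :=
  aeval (fun i => ∑ v, C (g (i, v)) * X v)

/-- the ideal `I` written in the coordinates `y_i = ∑_j g_ij x_j`: all `f` with `f(y) ∈ I`. For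
invertible `g` it is the image of `I` under the substitution with the inverse matrix, see
`coordIdeal_eq_map` below -/
noncomputable def coordIdeal {n : ℕ} {k : Type*} [Field k] (g : Fin n × Fin n → k)
    (I : Ideal (MvPolynomial (Fin n) k)) : Ideal (MvPolynomial (Fin n) k) :=
  I.comap (linSubst g)

/-- the monomials of the generic initial ideal: those in the initial ideal of `I` written in the
coordinates given by `g`, for all invertible `g` outside some proper hypersurface -/
def ginSet {n : ℕ} {k : Type*} [Field k] (I : Ideal (MvPolynomial (Fin n) k)) :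
    Set (Fin n →₀ ℕ) :=
  {m | ∃ F : MvPolynomial (Fin n × Fin n) k, F ≠ 0 ∧ ∀ g : Fin n × Fin n → k,
    (Matrix.of (fun i j => g (i, j))).det ≠ 0 → eval g F ≠ 0 → m ∈ inSet (coordIdeal g I)}

/-- the list of the indices of the variables of `m`, with multiplicity, in increasing order -/
noncomputable def idxList {n : ℕ} (m : Fin n →₀ ℕ) : List ℕ :=
  (Multiset.map (fun i : Fin n => (i : ℕ)) (Finsupp.toMultiset m)).sort (· ≤ ·)

/-- `φ(m)`: the `i`-th index (counted from `0`, in increasing order) is increased by `i` -/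
noncomputable def phi {n : ℕ} (m : Fin n →₀ ℕ) : Finset ℕ :=
  univ.image (fun i : Fin (idxList m).length => (idxList m).get i + (i : ℕ))

/-- the symmetric algebraic shifting `K^s` of `K` over `k` (vertices `0, ..., n-1`) -/
def shift {n : ℕ} (k : Type*) [Field k] (K : Finset (Finset (Fin n))) : Set (Finset ℕ) :=
  {S | ∃ m : Fin n →₀ ℕ, m ∉ ginSet (srIdeal k K) ∧ (∀ x ∈ phi m, x < n) ∧ S = phi m}

/-! ### the obstruction -/

/-- elements of `U` of even rank (the smallest element has rank `0`) -/
def evens {n : ℕ} (U : Finset (Fin n)) : Finset (Fin n) :=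
  U.filter (fun u => Even (U.filter (fun w => w < u)).card)

/-- elements of `U` of odd rank -/
def odds {n : ℕ} (U : Finset (Fin n)) : Finset (Fin n) :=
  U.filter (fun u => ¬ Even (U.filter (fun w => w < u)).card)

/-- the obstruction vanishes. The simplices of the deleted join of `L` are the pairs `(σ, τ)` of
disjoint faces; `Z` is a chain of dimension `d` (only its values at pairs with `d + 1` vertices
matter) with coefficients modulo `2`, symmetric under the exchange of `σ` and `τ`, and its boundary
is zero. The sum is over the alternating simplices; it is the value at `Z / (ℤ/2)` of the `d`-th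
power of the class of the double covering of the deleted join -/
def ObstructionVanishes {n : ℕ} (L : Finset (Finset (Fin n))) (d : ℕ) : Prop :=
  ∀ Z : Finset (Fin n) → Finset (Fin n) → ZMod 2,
    (∀ σ τ, Z σ τ = Z τ σ) →
    (∀ σ τ, Z σ τ ≠ 0 → σ ∈ L ∧ τ ∈ L) →
    (∀ ρ τ : Finset (Fin n), Disjoint ρ τ → ρ.card + τ.card = d →
      ∑ v ∈ (ρ ∪ τ)ᶜ, (Z (insert v ρ) τ + Z ρ (insert v τ)) = 0) →
    ∑ U ∈ powersetCard (d + 1) univ, Z (evens U) (odds U) = 0

/-- the deleted join of `L`: the vectors of `ℓ¹`-norm `1` whose positive and negative supports are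
faces -/
def deletedJoin {n : ℕ} (L : Finset (Finset (Fin n))) : Set (Fin n → ℝ) :=
  {x | ∑ i, |x i| = 1 ∧ univ.filter (fun i => 0 < x i) ∈ L ∧ univ.filter (fun i => x i < 0) ∈ L}

/-- there is an odd map from the deleted join of `L` to `ℝ^d` without zeros -/
def HasOddMap {n : ℕ} (L : Finset (Finset (Fin n))) (d : ℕ) : Prop :=
  ∃ f : (Fin n → ℝ) → (Fin d → ℝ), ContinuousOn f (deletedJoin L) ∧
    ∀ x ∈ deletedJoin L, f (-x) = -f x ∧ f x ≠ 0

/-- `L` almost embeds in `S^(d-1)`: there is a continuous map such that points of disjoint faces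
have different images -/
def AlmostEmbeds {n : ℕ} (L : Finset (Finset (Fin n))) (d : ℕ) : Prop :=
  ∃ f : realization L → Metric.sphere (0 : EuclideanSpace ℝ (Fin d)) 1, Continuous f ∧
    ∀ x y : realization L, (∀ i, (x : Fin n → ℝ) i = 0 ∨ (y : Fin n → ℝ) i = 0) → f x ≠ f y

/-! ### homology spheres -/

/-- the chain `c`, with coefficients modulo `2`, is supported on the faces of `K` with `j`
vertices -/
def SupportedOn {N : ℕ} (K : Finset (Finset (Fin N))) (j : ℕ) (c : Finset (Fin N) → ZMod 2) :
    Prop :=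
  ∀ σ, c σ ≠ 0 → σ ∈ K ∧ σ.card = j

/-- the boundary of a chain (the augmentation is included: the empty face has dimension `-1`) -/
def boundary {N : ℕ} (c : Finset (Fin N) → ZMod 2) (ρ : Finset (Fin N)) : ZMod 2 :=
  ∑ v ∈ ρᶜ, c (insert v ρ)

/-- the reduced mod `2` homology of `K` vanishes in dimension `j - 1` -/
def AcyclicAt {N : ℕ} (K : Finset (Finset (Fin N))) (j : ℕ) : Prop :=
  ∀ c : Finset (Fin N) → ZMod 2, SupportedOn K j c → (∀ ρ, boundary c ρ = 0) →
    ∃ b, SupportedOn K (j + 1) b ∧ ∀ ρ, c ρ = boundary b ρ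

/-- the link of the face `σ` -/
def link {N : ℕ} (K : Finset (Finset (Fin N))) (σ : Finset (Fin N)) : Finset (Finset (Fin N)) :=
  univ.filter (fun τ => Disjoint τ σ ∧ τ ∪ σ ∈ K)

/-- mod `2` homology spheres of dimension `d - 1`: the link of every face `σ` (also of the empty
face) has the reduced mod `2` homology of a sphere of dimension `d - 1 - |σ|` -/
def IsHomologySphere {N : ℕ} (K : Finset (Finset (Fin N))) (d : ℕ) : Prop :=
  IsComplex K ∧ (∀ σ ∈ K, σ.card ≤ d) ∧
    (∀ σ ∈ K, ∀ j, j + σ.card ≠ d → AcyclicAt (link K σ) j) ∧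
    ∀ σ ∈ K, ∃ z : Finset (Fin N) → ZMod 2, z ≠ 0 ∧ SupportedOn (link K σ) (d - σ.card) z ∧
      (∀ ρ, boundary z ρ = 0) ∧
      ∀ z', SupportedOn (link K σ) (d - σ.card) z' → (∀ ρ, boundary z' ρ = 0) → z' = 0 ∨ z' = z

/-- `L` is (isomorphic to) a subcomplex of a mod `2` homology sphere of dimension `d - 1` -/
def InHomologySphere {n : ℕ} (L : Finset (Finset (Fin n))) (d : ℕ) : Prop :=
  ∃ (N : ℕ) (K : Finset (Finset (Fin N))) (f : Fin n ↪ Fin N), IsHomologySphere K d ∧
    ∀ σ ∈ L, σ.map f ∈ K

/-- The Kalai-Sarkaria theorem for complexes with vanishing obstruction, over every infinite field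
of characteristic `0` or `2`, and cases of vanishing. -/
theorem result (k : Type) [Field k] [Infinite k] (hk : CharZero k ∨ CharP k 2) (d n : ℕ)
    (hd : 1 ≤ d) (hn : d + 1 ≤ n) (L : Finset (Finset (Fin n))) (hL : IsComplex L) :
    (ObstructionVanishes L d → shift k L ⊆ shift k (cyclicBoundary n d)) ∧
    (HasOddMap L d → ObstructionVanishes L d) ∧
    (EmbedsInSphere L d → AlmostEmbeds L d) ∧
    (AlmostEmbeds L d → HasOddMap L d) ∧
    (InHomologySphere L d → ObstructionVanishes L d) := by
  classical
  refine ⟨fun h => ?_, fun h => ?_, fun h => ?_, fun h => ?_, fun h => ?_⟩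
  · have hV : Y131.KS.VK2 L (d + 1) := by
      intro Z h1 h2 h3
      exact h Z h1 h2 (fun ρ τ a b => h3 ρ τ a (by omega))
    exact Y131.KS.main k inferInstance hk n d L hd (by omega) hL hV
  · have hV := Y131.KS.vk2_of_odd (L := L) (d := d) hL h
    intro Z h1 h2 h3
    exact hV Z h1 h2 (fun ρ τ a b => h3 ρ τ a (by omega))
  · obtain ⟨f, hf⟩ := h
    refine ⟨f, hf.continuous, ?_⟩
    intro x y hxy hfe
    have e := hf.injective hfe
    subst e
    have h0 : ∀ i, (x : Fin n → ℝ) i = 0 := fun i => (hxy i).elim id id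
    have h1 := x.2.2.1
    rw [sum_eq_zero (fun i _ => h0 i)] at h1
    exact zero_ne_one h1
  · obtain ⟨f, hf, hi⟩ := h
    refine Y131.KS.odd_of_coneEmb (L := L) (d := d) hL (Y131.KS.cone_of_almost L
      (fun x => if hx : x ∈ realization L then (f ⟨x, hx⟩ : EuclideanSpace ℝ (Fin d)) else 0)
      ?_ ?_ ?_)
    · rw [continuousOn_iff_continuous_domRestrict]
      have h0 : Continuous (fun x : realization L => (f x : EuclideanSpace ℝ (Fin d))) :=
        continuous_subtype_val.comp hf
      refine h0.congr ?_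
      intro x
      have hx : (x : Fin n → ℝ) ∈ realization L := x.2
      show (f x : EuclideanSpace ℝ (Fin d)) = if hx : (x : Fin n → ℝ) ∈ realization L then
        (f ⟨(x : Fin n → ℝ), hx⟩ : EuclideanSpace ℝ (Fin d)) else 0
      rw [dif_pos hx]
    · intro x hx
      have hx' : x ∈ realization L := hx
      rw [dif_pos hx']
      exact mem_sphere_zero_iff_norm.1 (f ⟨x, hx'⟩).2
    · intro x hx y hy hxy he
      have hx' : x ∈ realization L := hx
      have hy' : y ∈ realization L := hy
      rw [dif_pos hx', dif_pos hy'] at he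
      exact hi ⟨x, hx'⟩ ⟨y, hy'⟩ hxy (Subtype.ext he)
  · obtain ⟨N, K, f, hK, hf⟩ := h
    have hH : Y131.KS.HSph K d := ⟨hK.1, hK.2.1, hK.2.2.1, hK.2.2.2⟩
    have hV := Y131.KS.vk2_of_sphere hH f hf
    intro Z h1 h2 h3
    exact hV Z h1 h2 (fun ρ τ a b => h3 ρ τ a (by omega))

end Pool.Agent.Results.MP_dd083e_co.VanishingObstruction
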